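import Pool.Agent.MP_8e057e_ag.Gen

/-! In genus `g = k + 2` the syzygy bundles have the conjectured splitting type, and the bound on
the spread is attained. -/

namespace Pool.Agent.Results.MP_8e057e_ag.Attained

open Pool.Agent.MP_79c67d_ag Pool.Agent.MP_8e057e_ag

theorem result (k i : ℕ) (hi : 1 ≤ i) (hik : i + 3 ≤ k) : ∃ g : ℕ, g = k + 2 ∧ g + 2 ≤ 2 * k ∧
    ∀ (K F : Type) [Field K] [IsAlgClosed K] [CharZero K] [Field F] [Algebra K F]
      (t : F), Transcendental K t → ∀ [FiniteDimensional (IntermediateField.adjoin K {t}) F],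
      genus K F = g → ∀ W D : Divisor K F, deg W = 2 * g - 2 → h0 W = g → deg D = k →
      (GeneralCurve K F ∧ GeneralPencil D) ∨ Good W D →
      Nonempty (Scroll W D (k - 1)) ∧ ∀ (n : ℕ) (X : Scroll W D n), n + 1 = k ∧
        ∃ a : Multiset ℤ, X.IsSplitting i a ∧ (∀ a', X.IsSplitting i a' → a' = a) ∧
          a = Multiset.replicate (i * (g - 4).choose (i + 1)) 0 +
            Multiset.replicate ((g - 4 - i) * (g - 4).choose (g - 3 - i)) 1 ∧
          IsGreatest {d : ℤ | ∃ x ∈ a, ∃ y ∈ a, d = |x - y|} (min ((g : ℤ) - k - 1) (i + 1)) := by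
  refine ⟨_, rfl, by omega, fun K F _ _ _ _ _ t ht _ hg W D hW hW' hD h => ?_⟩
  have := FF.isFF_of_transcendental ht
  have h1 : IsCan W := ⟨by rw [hg, hW], by rw [hg, hW']⟩
  have h2 : Good W D := h.elim (fun h => good_of_general h1 (by omega) h.1 h.2 (by omega)) id
  obtain ⟨h3, h4⟩ := good_main h1 h2 hg hD (by omega)
  refine ⟨h3, fun n X => ⟨(h4 n X).1, ?_⟩⟩
  obtain ⟨a, a1, a2, a3, a4, a5⟩ := (h4 n X).2 i hi hik
  have e : min (((k + 2 : ℕ) : ℤ) - k - 1) (i + 1) = 1 := by omega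
  rw [e] at a3 ⊢
  have e1 : (k + 2 - 4).choose (k + 2 - 3 - i) = (k - 2).choose (i - 1) :=
    Nat.choose_symm_of_eq_add (by omega)
  have a6 := eq_of_zero_one a3 (u := i * (k - 2).choose (i + 1))
    (v := (k - 2 - i) * (k - 2).choose (i - 1)) (by rw [a4, Nat.cast_add]) (by
      rw [a5, show ((k + 2 : ℕ) : ℤ) - k - 1 = 1 by omega, one_mul])
  refine ⟨a, a1, a2, by rw [e1]; exact a6, ⟨1, ?_, 0, ?_, rfl⟩, ?_⟩
  · have := Nat.mul_pos (show 0 < k - 2 - i by omega) (Nat.choose_pos (show i - 1 ≤ k - 2 by omega))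
    rw [a6, Multiset.mem_add, Multiset.mem_replicate, Multiset.mem_replicate]
    exact Or.inr ⟨this.ne', rfl⟩
  · have := Nat.mul_pos hi (Nat.choose_pos (show i + 1 ≤ k - 2 by omega))
    rw [a6, Multiset.mem_add, Multiset.mem_replicate]
    exact Or.inl ⟨this.ne', rfl⟩
  · rintro _ ⟨x, hx, y, hy, rfl⟩
    have := a3 x hx
    have := a3 y hy
    rw [abs_le]
    omega

end Pool.Agent.Results.MP_8e057e_ag.Attained
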