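import Pool.Agent.MP_8e057e_ag.Gen

/-! The spread of the syzygy bundles in the relative canonical resolution of a general pencil on a
general curve is at most `min (g - k - 1) (i + 1)`. -/

namespace Pool.Agent.Results.MP_8e057e_ag.SpreadBound

open Pool.Agent.MP_79c67d_ag Pool.Agent.MP_8e057e_ag

theorem result (K F : Type) [Field K] [IsAlgClosed K] [CharZero K] [Field F] [Algebra K F]
    (t : F) (ht : Transcendental K t) [FiniteDimensional (IntermediateField.adjoin K {t}) F]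
    (g k : ℕ) (hg : genus K F = g) (hk : 3 ≤ k) (hkg : k < g) (_hρ : g + 2 ≤ 2 * k)
    (W D : Divisor K F) (hW : deg W = 2 * g - 2) (hW' : h0 W = g) (hD : deg D = k)
    (h : (GeneralCurve K F ∧ GeneralPencil D) ∨ Good W D) :
    Nonempty (Scroll W D (k - 1)) ∧ ∀ (n : ℕ) (X : Scroll W D n), n + 1 = k ∧
      ∀ i : ℕ, 1 ≤ i → i + 3 ≤ k → ∃ a : Multiset ℤ, X.IsSplitting i a ∧ a ≠ 0 ∧
        (∀ a', X.IsSplitting i a' → a' = a) ∧
        (∀ x ∈ a, 0 ≤ x ∧ x ≤ min ((g : ℤ) - k - 1) (i + 1)) ∧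
        ∀ x ∈ a, ∀ y ∈ a, |x - y| ≤ min ((g : ℤ) - k - 1) (i + 1) := by
  have := FF.isFF_of_transcendental ht
  have h1 : IsCan W := ⟨by rw [hg, hW], by rw [hg, hW']⟩
  have h2 : Good W D := h.elim (fun h => good_of_general h1 (by omega) h.1 h.2 (by omega)) id
  obtain ⟨h3, h4⟩ := good_main h1 h2 hg hD hkg
  refine ⟨h3, fun n X => ⟨(h4 n X).1, fun i hi hik => ?_⟩⟩
  obtain ⟨a, a1, a2, a3, a4, -⟩ := (h4 n X).2 i hi hik
  refine ⟨a, a1, fun e => ?_, a2, a3, fun x hx y hy => ?_⟩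
  · have := Nat.mul_pos (show 0 < k - 2 - i by omega) (Nat.choose_pos (show i - 1 ≤ k - 2 by omega))
    rw [e, Multiset.card_zero] at a4
    omega
  · have := a3 x hx
    have := a3 y hy
    rw [abs_le]
    omega

end Pool.Agent.Results.MP_8e057e_ag.SpreadBound
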